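import Mathlib

/-!
# Kakeya sets and coordinate projections

A set of `ℝⁿ` which contains a unit segment in each direction is mapped by the projection to the
first `m` coordinates onto a set of `ℝᵐ` with the same property, and the Hausdorff dimension does
not increase.
-/

set_option autoImplicit false

open MeasureTheory ENNReal

namespace Pool.KPR

/-- The set contains a unit segment in each direction. -/
def Seg {n : ℕ} (K : Set (EuclideanSpace ℝ (Fin n))) : Prop :=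
  ∀ e : EuclideanSpace ℝ (Fin n), ‖e‖ = 1 →
    ∃ x : EuclideanSpace ℝ (Fin n), ∀ t : ℝ, 0 ≤ t → t ≤ 1 → x + t • e ∈ K

/-- The projection to the first `m` coordinates. -/
def prj {m n : ℕ} (h : m ≤ n) (x : EuclideanSpace ℝ (Fin n)) : EuclideanSpace ℝ (Fin m) :=
  WithLp.toLp 2 fun i => x (Fin.castLE h i)

/-- The extension by zero. -/
def ext0 {m n : ℕ} (e : EuclideanSpace ℝ (Fin m)) : EuclideanSpace ℝ (Fin n) :=
  WithLp.toLp 2 fun j => if hj : (j : ℕ) < m then e ⟨j, hj⟩ else 0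

theorem prj_lip {m n : ℕ} (h : m ≤ n) : LipschitzWith 1 (prj (m := m) (n := n) h) := by
  refine LipschitzWith.of_dist_le_mul fun x y => ?_
  rw [NNReal.coe_one, one_mul, EuclideanSpace.dist_eq, EuclideanSpace.dist_eq]
  refine Real.sqrt_le_sqrt ?_
  have h1 : ∑ i : Fin m, dist ((prj h x) i) ((prj h y) i) ^ 2 =
      ∑ j ∈ Finset.univ.map (Fin.castLEEmb h), dist (x j) (y j) ^ 2 := by
    rw [Finset.sum_map]
    rfl
  rw [h1]
  exact Finset.sum_le_sum_of_subset_of_nonneg (Finset.subset_univ _) fun i _ _ => sq_nonneg _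

theorem norm_ext0 {m n : ℕ} (h : m ≤ n) (e : EuclideanSpace ℝ (Fin m)) :
    ‖(ext0 e : EuclideanSpace ℝ (Fin n))‖ = ‖e‖ := by
  rw [EuclideanSpace.norm_eq, EuclideanSpace.norm_eq]
  congr 1
  have h1 : ∑ i : Fin m, ‖e i‖ ^ 2 =
      ∑ j ∈ Finset.univ.map (Fin.castLEEmb h), ‖(ext0 e : EuclideanSpace ℝ (Fin n)) j‖ ^ 2 := by
    rw [Finset.sum_map]
    refine Finset.sum_congr rfl fun i _ => ?_
    have h2 : (ext0 e : EuclideanSpace ℝ (Fin n)) (Fin.castLEEmb h i) = e i := by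
      have h3 : ((Fin.castLEEmb h i : Fin n) : ℕ) < m := i.2
      show (if hj : ((Fin.castLEEmb h i : Fin n) : ℕ) < m then e ⟨_, hj⟩ else 0) = e i
      rw [dif_pos h3]
      rfl
    rw [h2]
  rw [h1]
  symm
  refine Finset.sum_subset (Finset.subset_univ _) fun j _ hj => ?_
  have h2 : ¬ (j : ℕ) < m := fun h3 => hj (Finset.mem_map.2 ⟨⟨j, h3⟩, Finset.mem_univ _, rfl⟩)
  have h4 : (ext0 e : EuclideanSpace ℝ (Fin n)) j = 0 := by
    show (if hj : (j : ℕ) < m then e ⟨j, hj⟩ else 0) = 0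
    rw [dif_neg h2]
  rw [h4, norm_zero]
  norm_num

theorem prj_seg {m n : ℕ} (h : m ≤ n) {K : Set (EuclideanSpace ℝ (Fin n))} (hK : Seg K) :
    Seg (prj h '' K) := by
  intro e he
  obtain ⟨x, hx⟩ := hK (ext0 e) (by rw [norm_ext0 h, he])
  refine ⟨prj h x, fun t h0 h1 => ⟨x + t • ext0 e, hx t h0 h1, ?_⟩⟩
  ext i
  have h3 : ((Fin.castLE h i : Fin n) : ℕ) < m := i.2
  show x (Fin.castLE h i) + t * (if hj : ((Fin.castLE h i : Fin n) : ℕ) < m then e ⟨_, hj⟩ else 0) =
    x (Fin.castLE h i) + t * e i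
  rw [dif_pos h3]
  rfl

/-- **Projection**: a lower bound for the dimension of the sets of `ℝᵐ` which contain a unit segment
in each direction holds in every `ℝⁿ` with `n ≥ m`. -/
theorem le_dimH_of_le {m n : ℕ} (h : m ≤ n) {b : ℝ≥0∞}
    (hm : ∀ K : Set (EuclideanSpace ℝ (Fin m)), Seg K → b ≤ dimH K)
    (K : Set (EuclideanSpace ℝ (Fin n))) (hK : Seg K) : b ≤ dimH K :=
  (hm _ (prj_seg h hK)).trans ((prj_lip h).dimH_image_le K)

end Pool.KPR
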